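import Pool.Agent.Y935.WR.Stm

/-! # Project WR: the circle method -/

set_option autoImplicit false

namespace Pool.Agent.Y434.WR

open Finset MeasureTheory Filter Pool.Agent.Y935.WR
open Pool.Agent.Helper602.MK (ee)
open Pool.Agent.Helper602.MK.N_J5b

noncomputable section

/-- the character `m` -/
def EE (θ : ℝ) (m : ℤ) : ℂ := ee (θ * m)

theorem EE_add (θ : ℝ) (m m' : ℤ) : EE θ (m + m') = EE θ m * EE θ m' := by
  unfold EE
  rw [← ee_add]
  congr 1
  push_cast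
  ring

theorem EE_norm (θ : ℝ) (m : ℤ) : ‖EE θ m‖ = 1 := norm_ee _

theorem EE_conj (θ : ℝ) (m : ℤ) : (starRingEnd ℂ) (EE θ m) = EE θ (-m) := by
  unfold EE
  rw [ee_conj]
  congr 1
  push_cast
  ring

theorem EE_eq (θ : ℝ) (m : ℤ) : EE θ m = Complex.exp ((2 * Real.pi * m * Complex.I) * θ) := by
  unfold EE ee
  congr 1
  push_cast
  ring

theorem EE_cont (m : ℤ) : Continuous fun θ : ℝ => EE θ m := by
  simp only [EE_eq]
  fun_prop

theorem EE_int (m : ℤ) : ∫ θ in (-(1 / 2) : ℝ)..(1 / 2), EE θ m = if m = 0 then 1 else 0 := by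
  split_ifs with h
  · subst h
    have : ∀ θ : ℝ, EE θ 0 = 1 := by
      intro θ
      rw [EE_eq]
      simp
    simp only [this]
    rw [intervalIntegral.integral_const]
    norm_num
  · simp only [EE_eq]
    have hc : (2 * Real.pi * m * Complex.I : ℂ) ≠ 0 := by
      have h1 : (Real.pi : ℂ) ≠ 0 := by exact_mod_cast Real.pi_ne_zero
      have h2 : (m : ℂ) ≠ 0 := by exact_mod_cast h
      exact mul_ne_zero (mul_ne_zero (mul_ne_zero two_ne_zero h1) h2) Complex.I_ne_zero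
    rw [integral_exp_mul_complex hc]
    have h3 : Complex.exp (2 * Real.pi * m * Complex.I * ((1 / 2 : ℝ) : ℂ)) =
        Complex.exp (2 * Real.pi * m * Complex.I * ((-(1 / 2) : ℝ) : ℂ)) := by
      have : (2 * Real.pi * m * Complex.I * ((1 / 2 : ℝ) : ℂ)) =
          2 * Real.pi * m * Complex.I * ((-(1 / 2) : ℝ) : ℂ) + m * (2 * Real.pi * Complex.I) := by
        push_cast
        ring
      rw [this, Complex.exp_add, Complex.exp_int_mul_two_pi_mul_I, mul_one]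
    rw [h3, sub_self, zero_div]

theorem sum_int {σ : Type} (s : Finset σ) (v : σ → ℂ) (m : σ → ℤ) :
    ∫ θ in (-(1 / 2) : ℝ)..(1 / 2), ∑ p ∈ s, v p * EE θ (m p) =
      ∑ p ∈ s, v p * (if m p = 0 then 1 else 0) := by
  rw [intervalIntegral.integral_finsetSum]
  · refine Finset.sum_congr rfl fun p _ => ?_
    rw [intervalIntegral.integral_const_mul, EE_int]
  · intro p _
    exact ((continuous_const.mul (EE_cont (m p))).intervalIntegrable _ _)

theorem nsq {σ : Type} (s : Finset σ) (m : σ → ℤ) (θ : ℝ) :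
    ((‖∑ i ∈ s, EE θ (m i)‖ ^ 2 : ℝ) : ℂ) = ∑ p ∈ s ×ˢ s, EE θ (m p.1 - m p.2) := by
  rw [← Complex.normSq_eq_norm_sq, ← Complex.mul_conj, map_sum, Finset.sum_mul_sum,
    Finset.sum_product]
  refine Finset.sum_congr rfl fun i _ => Finset.sum_congr rfl fun j _ => ?_
  rw [EE_conj, ← EE_add, sub_eq_add_neg]

theorem int_nsq {ι : Type} (A : Finset ι) (a : ι → ℤ) :
    ∫ θ in (-(1 / 2) : ℝ)..(1 / 2), ‖∑ i ∈ A, EE θ (a i)‖ ^ 2 = Jc A a := by
  have h1 : ((∫ θ in (-(1 / 2) : ℝ)..(1 / 2), ‖∑ i ∈ A, EE θ (a i)‖ ^ 2 : ℝ) : ℂ) = (Jc A a : ℂ) := by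
    rw [← intervalIntegral.integral_ofReal]
    simp only [nsq]
    have := sum_int (A ×ˢ A) (fun _ => 1) (fun p => a p.1 - a p.2)
    simp only [one_mul] at this
    rw [this]
    unfold Jc
    rw [Finset.card_filter]
    push_cast
    refine Finset.sum_congr rfl fun p _ => ?_
    simp only [sub_eq_zero]
  exact_mod_cast h1

theorem circ : S_CIRC := by
  intro ι κ τ A B Z a b c w M S n hM hS hbd
  obtain ⟨Ah, hAh⟩ : ∃ f : ℝ → ℂ, f = fun θ => ∑ x ∈ A, EE θ (a x) := ⟨_, rfl⟩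
  obtain ⟨Bh, hBh⟩ : ∃ f : ℝ → ℂ, f = fun θ => ∑ x ∈ B, EE θ (b x) := ⟨_, rfl⟩
  obtain ⟨ρ, hρ⟩ : ∃ f : ℝ → ℂ, f = fun θ => ∑ z ∈ Z, (w z : ℂ) * EE θ (c z) := ⟨_, rfl⟩
  obtain ⟨Kr, hKr⟩ : ∃ f : ℝ → ℝ, f = fun θ => ‖(1 / (M : ℂ)) * ∑ i ∈ range M, ee (i * θ)‖ ^ 2 :=
    ⟨_, rfl⟩
  have cA : Continuous Ah := by
    rw [hAh]; exact continuous_finsetSum _ fun x _ => EE_cont _
  have cB : Continuous Bh := by
    rw [hBh]; exact continuous_finsetSum _ fun x _ => EE_cont _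
  have cρ : Continuous ρ := by
    rw [hρ]; exact continuous_finsetSum _ fun x _ => continuous_const.mul (EE_cont _)
  have eK : ∀ θ, Kr θ = (1 / (M : ℝ) ^ 2) * ‖∑ i ∈ range M, EE θ ((i : ℕ) : ℤ)‖ ^ 2 := by
    intro θ
    rw [hKr]
    simp only
    rw [norm_mul, mul_pow]
    congr 1
    · rw [norm_div, norm_one, Complex.norm_natCast, one_div, one_div, inv_pow]
    · congr 2
      refine Finset.sum_congr rfl fun i _ => ?_
      unfold EE
      congr 1
      push_cast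
      ring
  have cK : Continuous Kr := by
    have : Kr = fun θ => (1 / (M : ℝ) ^ 2) * ‖∑ i ∈ range M, EE θ ((i : ℕ) : ℤ)‖ ^ 2 := by
      funext θ; exact eK θ
    rw [this]
    exact continuous_const.mul ((continuous_finsetSum _ fun x _ => EE_cont _).norm.pow 2)
  have eV : ∀ θ, Vt M θ = 1 - Kr θ := by
    intro θ
    rw [hKr]
    rfl
  have hM0 : (0 : ℝ) < M := by exact_mod_cast hM
  have hV0 : ∀ θ, 0 ≤ Vt M θ := by
    intro θ
    rw [eV, eK]
    have h1 : ‖∑ i ∈ range M, EE θ ((i : ℕ) : ℤ)‖ ≤ M := by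
      refine (norm_sum_le _ _).trans ?_
      simp only [EE_norm]
      simp
    have h2 : ‖∑ i ∈ range M, EE θ ((i : ℕ) : ℤ)‖ ^ 2 ≤ (M : ℝ) ^ 2 :=
      pow_le_pow_left₀ (norm_nonneg _) h1 2
    have h3 : (1 / (M : ℝ) ^ 2) * ‖∑ i ∈ range M, EE θ ((i : ℕ) : ℤ)‖ ^ 2 ≤ 1 := by
      rw [one_div, inv_mul_le_iff₀ (by positivity), mul_one]
      exact h2
    linarith
  -- the product
  have eg : ∀ θ, Ah θ * (Bh θ * ρ θ) * EE θ (-n) = ∑ p ∈ A ×ˢ (B ×ˢ Z),
      (w p.2.2 : ℂ) * EE θ (a p.1 + b p.2.1 + c p.2.2 - n) := by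
    intro θ
    rw [hAh, hBh, hρ]
    simp only
    rw [Finset.sum_mul_sum, Finset.sum_mul_sum, Finset.sum_mul, Finset.sum_product]
    refine Finset.sum_congr rfl fun x _ => ?_
    rw [Finset.sum_mul, Finset.sum_product]
    refine Finset.sum_congr rfl fun y _ => ?_
    rw [Finset.mul_sum, Finset.sum_mul]
    refine Finset.sum_congr rfl fun z _ => ?_
    rw [sub_eq_add_neg, EE_add, EE_add, EE_add]
    ring
  have egK : ∀ θ, Ah θ * (Bh θ * ρ θ) * EE θ (-n) * (Kr θ : ℂ) =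
      ∑ p ∈ (A ×ˢ (B ×ˢ Z)) ×ˢ (range M ×ˢ range M),
      ((w p.1.2.2 : ℂ) * (1 / (M : ℂ) ^ 2)) *
        EE θ (a p.1.1 + b p.1.2.1 + c p.1.2.2 - n + ((p.2.1 : ℤ) - p.2.2)) := by
    intro θ
    rw [eg, eK]
    push_cast
    have h1 := nsq (range M) (fun i => ((i : ℕ) : ℤ)) θ
    push_cast at h1
    rw [h1, Finset.sum_mul]
    conv_rhs => rw [Finset.sum_product]
    refine Finset.sum_congr rfl fun p _ => ?_
    rw [Finset.mul_sum, Finset.mul_sum]
    refine Finset.sum_congr rfl fun q _ => ?_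
    rw [EE_add]
    ring
  have I1 : ∫ θ in (-(1 / 2) : ℝ)..(1 / 2), Ah θ * (Bh θ * ρ θ) * EE θ (-n) =
      ((∑ x ∈ A, ∑ y ∈ B, ∑ z ∈ Z, w z * (if a x + b y + c z = n then 1 else 0) : ℝ) : ℂ) := by
    simp only [eg]
    rw [sum_int, Finset.sum_product]
    push_cast
    refine Finset.sum_congr rfl fun x _ => ?_
    rw [Finset.sum_product]
    refine Finset.sum_congr rfl fun y _ => ?_
    refine Finset.sum_congr rfl fun z _ => ?_
    simp only [sub_eq_zero]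
    split_ifs <;> simp
  have I2 : ∫ θ in (-(1 / 2) : ℝ)..(1 / 2), Ah θ * (Bh θ * ρ θ) * EE θ (-n) * (Kr θ : ℂ) =
      ((∑ x ∈ A, ∑ y ∈ B, ∑ z ∈ Z, w z * Wt M (n - a x - b y - c z) : ℝ) : ℂ) := by
    simp only [egK]
    rw [sum_int, Finset.sum_product, Finset.sum_product]
    push_cast
    refine Finset.sum_congr rfl fun x _ => ?_
    rw [Finset.sum_product]
    refine Finset.sum_congr rfl fun y _ => ?_
    refine Finset.sum_congr rfl fun z _ => ?_
    unfold Wt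
    rw [Finset.card_filter]
    push_cast
    rw [← Finset.mul_sum]
    have : ∀ p : ℕ × ℕ, (a x + b y + c z - n + ((p.1 : ℤ) - p.2) = 0) ↔
        ((p.1 : ℤ) - p.2 = n - a x - b y - c z) := by
      intro p
      constructor <;> intro h <;> linarith
    simp only [this]
    simp only [apply_ite Complex.ofReal,
      Complex.ofReal_one, Complex.ofReal_zero]
    ring
  have hV : ∀ θ : ℝ, Ah θ * (Bh θ * ρ θ) * EE θ (-n) - Ah θ * (Bh θ * ρ θ) * EE θ (-n) * (Kr θ : ℂ) =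
      Ah θ * (Bh θ * ρ θ) * EE θ (-n) * ((Vt M θ : ℝ) : ℂ) := by
    intro θ
    rw [eV]
    push_cast
    ring
  have cg : Continuous fun θ : ℝ => Ah θ * (Bh θ * ρ θ) * EE θ (-n) :=
    (cA.mul (cB.mul cρ)).mul (EE_cont _)
  have cgK : Continuous fun θ : ℝ => Ah θ * (Bh θ * ρ θ) * EE θ (-n) * (Kr θ : ℂ) :=
    cg.mul (Complex.continuous_ofReal.comp cK)
  have main : ‖∫ θ in (-(1 / 2) : ℝ)..(1 / 2), (Ah θ * (Bh θ * ρ θ) * EE θ (-n) -
      Ah θ * (Bh θ * ρ θ) * EE θ (-n) * (Kr θ : ℂ))‖ ≤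
      ∫ θ in (-(1 / 2) : ℝ)..(1 / 2), S * (‖Ah θ‖ * ‖Bh θ‖) := by
    refine intervalIntegral.norm_integral_le_of_norm_le (by norm_num) ?_
      ((continuous_const.mul (cA.norm.mul cB.norm)).intervalIntegrable _ _)
    refine Filter.Eventually.of_forall fun θ hθ => ?_
    rw [hV, norm_mul, norm_mul, norm_mul, norm_mul, EE_norm, mul_one, Complex.norm_real,
      Real.norm_of_nonneg (hV0 θ)]
    have h1 := hbd θ (abs_le.2 ⟨by linarith [hθ.1], hθ.2⟩)
    have h2 : ‖ρ θ‖ * Vt M θ ≤ S := by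
      rw [hρ]
      exact h1
    calc ‖Ah θ‖ * (‖Bh θ‖ * ‖ρ θ‖) * Vt M θ = (‖Ah θ‖ * ‖Bh θ‖) * (‖ρ θ‖ * Vt M θ) := by ring
      _ ≤ (‖Ah θ‖ * ‖Bh θ‖) * S := mul_le_mul_of_nonneg_left h2 (by positivity)
      _ = S * (‖Ah θ‖ * ‖Bh θ‖) := by ring
  rw [intervalIntegral.integral_sub (cg.intervalIntegrable _ _) (cgK.intervalIntegrable _ _), I1, I2,
    ← Complex.ofReal_sub, Complex.norm_real, Real.norm_eq_abs] at main
  refine main.trans ?_
  rw [intervalIntegral.integral_const_mul]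
  refine mul_le_mul_of_nonneg_left ?_ hS
  have JA := int_nsq A a
  have JB := int_nsq B b
  have eA : ∀ θ, Ah θ = ∑ x ∈ A, EE θ (a x) := fun θ => by rw [hAh]
  have eB : ∀ θ, Bh θ = ∑ x ∈ B, EE θ (b x) := fun θ => by rw [hBh]
  simp only [← eA] at JA
  simp only [← eB] at JB
  have key : ∀ s : ℝ, 0 < s → ∫ θ in (-(1 / 2) : ℝ)..(1 / 2), ‖Ah θ‖ * ‖Bh θ‖ ≤
      (s * Jc A a + s⁻¹ * Jc B b) / 2 := by
    intro s hs
    have h1 : ∫ θ in (-(1 / 2) : ℝ)..(1 / 2), ‖Ah θ‖ * ‖Bh θ‖ ≤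
        ∫ θ in (-(1 / 2) : ℝ)..(1 / 2), ((s / 2) * ‖Ah θ‖ ^ 2 + (s⁻¹ / 2) * ‖Bh θ‖ ^ 2) := by
      refine intervalIntegral.integral_mono_on (by norm_num)
        ((cA.norm.mul cB.norm).intervalIntegrable _ _)
        (((continuous_const.mul (cA.norm.pow 2)).add
          (continuous_const.mul (cB.norm.pow 2))).intervalIntegrable _ _) fun θ _ => ?_
      have e1 : (s / 2) * ‖Ah θ‖ ^ 2 + (s⁻¹ / 2) * ‖Bh θ‖ ^ 2 - ‖Ah θ‖ * ‖Bh θ‖ =
          (s⁻¹ / 2) * (s * ‖Ah θ‖ - ‖Bh θ‖) ^ 2 := by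
        field_simp
        ring
      have e2 : 0 ≤ (s⁻¹ / 2) * (s * ‖Ah θ‖ - ‖Bh θ‖) ^ 2 := by positivity
      linarith
    have i1 : IntervalIntegrable (fun θ : ℝ => (s / 2) * ‖Ah θ‖ ^ 2) volume (-(1 / 2)) (1 / 2) :=
      (continuous_const.mul (cA.norm.pow 2)).intervalIntegrable _ _
    have i2 : IntervalIntegrable (fun θ : ℝ => (s⁻¹ / 2) * ‖Bh θ‖ ^ 2) volume (-(1 / 2)) (1 / 2) :=
      (continuous_const.mul (cB.norm.pow 2)).intervalIntegrable _ _
    rw [intervalIntegral.integral_add i1 i2,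
      intervalIntegral.integral_const_mul, intervalIntegral.integral_const_mul, JA, JB] at h1
    refine h1.trans (le_of_eq ?_)
    ring
  rcases Nat.eq_zero_or_pos (Jc A a) with h0 | h0
  · have hA : A = ∅ := by
      unfold Jc at h0
      rw [Finset.card_eq_zero] at h0
      by_contra hne
      obtain ⟨x, hx⟩ := Finset.nonempty_iff_ne_empty.2 hne
      have : (x, x) ∈ (A ×ˢ A).filter fun p : ι × ι => a p.1 = a p.2 := by simp [hx]
      rw [h0] at this
      simp at this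
    simp only [eA, hA, Finset.sum_empty, norm_zero, zero_mul, intervalIntegral.integral_zero]
    positivity
  · rcases Nat.eq_zero_or_pos (Jc B b) with h1 | h1
    · have hB : B = ∅ := by
        unfold Jc at h1
        rw [Finset.card_eq_zero] at h1
        by_contra hne
        obtain ⟨x, hx⟩ := Finset.nonempty_iff_ne_empty.2 hne
        have : (x, x) ∈ (B ×ˢ B).filter fun p : κ × κ => b p.1 = b p.2 := by simp [hx]
        rw [h1] at this
        simp at this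
      simp only [eB, hB, Finset.sum_empty, norm_zero, mul_zero, intervalIntegral.integral_zero]
      positivity
    · have pA : (0 : ℝ) < Jc A a := by exact_mod_cast h0
      have pB : (0 : ℝ) < Jc B b := by exact_mod_cast h1
      have sA := Real.sqrt_pos.2 pA
      have sB := Real.sqrt_pos.2 pB
      refine (key (Real.sqrt (Jc B b) / Real.sqrt (Jc A a)) (by positivity)).trans ?_
      rw [Real.sqrt_mul pA.le, inv_div]
      have e1 : (Jc A a : ℝ) = Real.sqrt (Jc A a) ^ 2 := (Real.sq_sqrt pA.le).symm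
      have e2 : (Jc B b : ℝ) = Real.sqrt (Jc B b) ^ 2 := (Real.sq_sqrt pB.le).symm
      apply le_of_eq
      generalize Real.sqrt (Jc A a) = u at *
      generalize Real.sqrt (Jc B b) = v at *
      rw [e1, e2]
      field_simp
      ring

end

end Pool.Agent.Y434.WR

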